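import Mathlib

set_option autoImplicit false

open Filter Topology

namespace Pool.Agent.Y281.NI

/-- The coefficients. -/
noncomputable def cf (n : ℕ) : ℝ := (Real.sqrt (n + 1))⁻¹

lemma cf_pos (n : ℕ) : 0 < cf n := by
  unfold cf
  positivity

lemma cf_le_one (n : ℕ) : cf n ≤ 1 := by
  unfold cf
  apply inv_le_one_of_one_le₀
  rw [Real.one_le_sqrt]
  have : (0 : ℝ) ≤ n := Nat.cast_nonneg n
  linarith

lemma cf_sq (n : ℕ) : cf n ^ 2 = 1 / ((n : ℝ) + 1) := by
  unfold cf
  rw [inv_pow, Real.sq_sqrt (by positivity), one_div]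

lemma sum_cf_range (r : ℕ) : ∑ n ∈ Finset.range r, cf n ≤ 2 * Real.sqrt r := by
  induction r with
  | zero => simp
  | succ r ih =>
    rw [Finset.sum_range_succ]
    have h1 : cf r ≤ 2 * (Real.sqrt ((r : ℝ) + 1) - Real.sqrt r) := by
      unfold cf
      have ha : 0 < Real.sqrt ((r : ℝ) + 1) := by positivity
      have hb : 0 ≤ Real.sqrt (r : ℝ) := Real.sqrt_nonneg _
      have hab : Real.sqrt (r : ℝ) ≤ Real.sqrt ((r : ℝ) + 1) := Real.sqrt_le_sqrt (by linarith)
      have h2 : (Real.sqrt ((r : ℝ) + 1)) ^ 2 = (r : ℝ) + 1 := Real.sq_sqrt (by positivity)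
      have h3 : (Real.sqrt (r : ℝ)) ^ 2 = (r : ℝ) := Real.sq_sqrt (by positivity)
      rw [inv_le_iff_one_le_mul₀ ha]
      nlinarith
    push_cast
    linarith

lemma sum_cf (P : Finset ℕ) : ∑ n ∈ P, cf n ≤ 3 * Real.sqrt P.card := by
  classical
  rcases P.eq_empty_or_nonempty with rfl | hP
  · simp
  set r := P.card with hr
  have hr1 : 1 ≤ r := hP.card_pos
  have hr0 : (0 : ℝ) < r := by exact_mod_cast hr1
  rw [← Finset.sum_filter_add_sum_filter_not P (fun n => n < r)]
  have h1 : ∑ n ∈ P.filter (fun n => n < r), cf n ≤ 2 * Real.sqrt r := by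
    refine le_trans ?_ (sum_cf_range r)
    apply Finset.sum_le_sum_of_subset_of_nonneg
    · intro n hn
      rw [Finset.mem_filter] at hn
      exact Finset.mem_range.mpr hn.2
    · intro n _ _
      exact (cf_pos n).le
  have h2 : ∑ n ∈ P.filter (fun n => ¬ n < r), cf n ≤ Real.sqrt r := by
    calc ∑ n ∈ P.filter (fun n => ¬ n < r), cf n
        ≤ ∑ _n ∈ P.filter (fun n => ¬ n < r), (Real.sqrt r)⁻¹ := by
          apply Finset.sum_le_sum
          intro n hn
          rw [Finset.mem_filter] at hn
          unfold cf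
          have hn2 : r ≤ n := not_lt.mp hn.2
          have hn3 : (r : ℝ) ≤ n := by exact_mod_cast hn2
          apply inv_anti₀ (by positivity)
          apply Real.sqrt_le_sqrt
          linarith
      _ = ((P.filter (fun n => ¬ n < r)).card : ℝ) * (Real.sqrt r)⁻¹ := by
          rw [Finset.sum_const, nsmul_eq_mul]
      _ ≤ r * (Real.sqrt r)⁻¹ := by
          apply mul_le_mul_of_nonneg_right _ (by positivity)
          exact_mod_cast Finset.card_filter_le _ _
      _ = Real.sqrt r := by
          rw [← div_eq_mul_inv, Real.div_sqrt]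
  linarith

/-- A vector with only two values and small norm has a bounded pairing with the coefficients. -/
lemma two_val (θ : ℕ → ℝ) {N : ℕ} {R η : ℝ} (hR : 0 ≤ R) (hη : 0 ≤ η)
    (h1 : ∀ P ⊆ Finset.range N, P.Nonempty → ∑ n ∈ P, θ n ≤ R * Real.sqrt P.card)
    (h2 : ∀ n < N, (∀ m < N, θ m - θ n ≤ η) ∨ (∀ m < N, θ n - θ m ≤ η)) :
    ∑ n ∈ Finset.range N, cf n * θ n ≤ 6 * R + 6 * (Real.sqrt N * η) := by
  classical
  set P := (Finset.range N).filter (fun n => ∀ m < N, θ m - θ n ≤ η) with hP
  have hPsub : P ⊆ Finset.range N := Finset.filter_subset _ _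
  rw [← Finset.sum_filter_add_sum_filter_not (Finset.range N) (fun n => ∀ m < N, θ m - θ n ≤ η)]
  have hsN : 0 ≤ Real.sqrt (N : ℝ) := Real.sqrt_nonneg _
  have hA : ∑ n ∈ P, cf n * θ n ≤ 3 * R + 3 * (Real.sqrt N * η) := by
    rcases P.eq_empty_or_nonempty with hPe | hPne
    · rw [hPe]
      simp only [Finset.sum_empty]
      positivity
    set r := P.card with hr
    have hr1 : 1 ≤ r := hPne.card_pos
    have hr0 : (0 : ℝ) < r := by exact_mod_cast hr1
    have hsr : 0 < Real.sqrt (r : ℝ) := Real.sqrt_pos.mpr hr0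
    have hrN : Real.sqrt (r : ℝ) ≤ Real.sqrt N := by
      apply Real.sqrt_le_sqrt
      have : r ≤ N := by
        have := Finset.card_le_card hPsub
        rwa [Finset.card_range] at this
      exact_mod_cast this
    have hsq : Real.sqrt (r : ℝ) * Real.sqrt (r : ℝ) = r := Real.mul_self_sqrt hr0.le
    have hbound : ∀ n ∈ P, θ n ≤ R / Real.sqrt r + η := by
      intro n hn
      have hn' : n < N := Finset.mem_range.mp (hPsub hn)
      have e1 : (r : ℝ) * (θ n - η) ≤ ∑ m ∈ P, θ m := by
        calc (r : ℝ) * (θ n - η) = ∑ _m ∈ P, (θ n - η) := by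
              rw [Finset.sum_const, nsmul_eq_mul]
          _ ≤ ∑ m ∈ P, θ m := by
              apply Finset.sum_le_sum
              intro m hm
              have := (Finset.mem_filter.mp hm).2 n hn'
              linarith
      have e2 := h1 P hPsub hPne
      have e3 : (r : ℝ) * (θ n - η) ≤ R * Real.sqrt r := e1.trans e2
      have e4 : θ n - η ≤ R / Real.sqrt r := by
        rw [le_div_iff₀ hsr]
        have : ((θ n - η) * Real.sqrt r) * Real.sqrt r ≤ R * Real.sqrt r := by
          rw [mul_assoc, hsq]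
          linarith
        exact le_of_mul_le_mul_right this hsr
      linarith
    have hnn : 0 ≤ R / Real.sqrt r + η := by positivity
    calc ∑ n ∈ P, cf n * θ n ≤ ∑ n ∈ P, cf n * (R / Real.sqrt r + η) := by
          apply Finset.sum_le_sum
          intro n hn
          exact mul_le_mul_of_nonneg_left (hbound n hn) (cf_pos n).le
      _ = (∑ n ∈ P, cf n) * (R / Real.sqrt r + η) := by rw [Finset.sum_mul]
      _ ≤ (3 * Real.sqrt r) * (R / Real.sqrt r + η) :=
          mul_le_mul_of_nonneg_right (sum_cf P) hnn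
      _ = 3 * R + 3 * (Real.sqrt r * η) := by field_simp
      _ ≤ 3 * R + 3 * (Real.sqrt N * η) := by
          have := mul_le_mul_of_nonneg_right hrN hη
          linarith
  have hB : ∑ n ∈ (Finset.range N).filter (fun n => ¬ ∀ m < N, θ m - θ n ≤ η), cf n * θ n ≤
      3 * R + 3 * (Real.sqrt N * η) := by
    rcases Nat.eq_zero_or_pos N with hN | hN
    · subst hN
      simp
      positivity
    have hN0 : (0 : ℝ) < N := by exact_mod_cast hN
    have hsN' : 0 < Real.sqrt (N : ℝ) := Real.sqrt_pos.mpr hN0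
    have hsq : Real.sqrt (N : ℝ) * Real.sqrt (N : ℝ) = N := Real.mul_self_sqrt hN0.le
    have hbound : ∀ n ∈ (Finset.range N).filter (fun n => ¬ ∀ m < N, θ m - θ n ≤ η),
        θ n ≤ R / Real.sqrt N + η := by
      intro n hn
      rw [Finset.mem_filter, Finset.mem_range] at hn
      have hn2 : ∀ m < N, θ n - θ m ≤ η := (h2 n hn.1).resolve_left hn.2
      have e1 : (N : ℝ) * (θ n - η) ≤ ∑ m ∈ Finset.range N, θ m := by
        calc (N : ℝ) * (θ n - η) = ∑ _m ∈ Finset.range N, (θ n - η) := by
              rw [Finset.sum_const, nsmul_eq_mul, Finset.card_range]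
          _ ≤ ∑ m ∈ Finset.range N, θ m := by
              apply Finset.sum_le_sum
              intro m hm
              have := hn2 m (Finset.mem_range.mp hm)
              linarith
      have e2 := h1 (Finset.range N) subset_rfl (Finset.nonempty_range_iff.mpr hN.ne')
      rw [Finset.card_range] at e2
      have e3 : (N : ℝ) * (θ n - η) ≤ R * Real.sqrt N := e1.trans e2
      have e4 : θ n - η ≤ R / Real.sqrt N := by
        rw [le_div_iff₀ hsN']
        have : ((θ n - η) * Real.sqrt N) * Real.sqrt N ≤ R * Real.sqrt N := by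
          rw [mul_assoc, hsq]
          linarith
        exact le_of_mul_le_mul_right this hsN'
      linarith
    have hnn : 0 ≤ R / Real.sqrt N + η := by positivity
    set M := (Finset.range N).filter (fun n => ¬ ∀ m < N, θ m - θ n ≤ η) with hM
    have hMsub : M ⊆ Finset.range N := Finset.filter_subset _ _
    calc ∑ n ∈ M, cf n * θ n ≤ ∑ n ∈ M, cf n * (R / Real.sqrt N + η) := by
          apply Finset.sum_le_sum
          intro n hn
          exact mul_le_mul_of_nonneg_left (hbound n hn) (cf_pos n).le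
      _ = (∑ n ∈ M, cf n) * (R / Real.sqrt N + η) := by rw [Finset.sum_mul]
      _ ≤ (3 * Real.sqrt N) * (R / Real.sqrt N + η) := by
          apply mul_le_mul_of_nonneg_right _ hnn
          calc ∑ n ∈ M, cf n ≤ ∑ n ∈ Finset.range N, cf n :=
                Finset.sum_le_sum_of_subset_of_nonneg hMsub fun n _ _ => (cf_pos n).le
            _ ≤ 2 * Real.sqrt N := sum_cf_range N
            _ ≤ 3 * Real.sqrt N := by linarith
      _ = 3 * R + 3 * (Real.sqrt N * η) := by field_simp
  linarith

end Pool.Agent.Y281.NI
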