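import Mathlib

/-!
Tools for slices of the unit ball and weakly convergent families in Hilbert spaces.
The lemmas `apply_le`, `sl_nonempty`, `nearMax`, `hilbStep`, `gram`, `exists_weak_limit`,
`coord_small`, `select` are taken from the earlier file `Results/MP_aef148_an/Subspaces.lean`.
-/

set_option autoImplicit false

open Filter Topology

namespace Pool.Agent.Y281.NI

noncomputable section

section general

variable {Z : Type*} [NormedAddCommGroup Z] [NormedSpace ℝ Z]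

/-- Slice of the closed unit ball. -/
def Sl (g : Z →L[ℝ] ℝ) (δ : ℝ) : Set Z := {z | ‖z‖ ≤ 1 ∧ ‖g‖ - δ < g z}

lemma apply_le (g : Z →L[ℝ] ℝ) {z : Z} (hz : ‖z‖ ≤ 1) : g z ≤ ‖g‖ :=
  calc g z ≤ |g z| := le_abs_self _
    _ = ‖g z‖ := rfl
    _ ≤ ‖g‖ * ‖z‖ := g.le_opNorm _
    _ ≤ ‖g‖ := mul_le_of_le_one_right (norm_nonneg _) hz

lemma sl_nonempty (g : Z →L[ℝ] ℝ) {δ : ℝ} (hδ : 0 < δ) : (Sl g δ).Nonempty := by
  obtain ⟨x, hx, hgx⟩ := g.exists_lt_apply_of_lt_opNorm (show ‖g‖ - δ < ‖g‖ by linarith)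
  rcases le_or_gt 0 (g x) with h | h
  · exact ⟨x, hx.le, by rwa [Real.norm_eq_abs, abs_of_nonneg h] at hgx⟩
  · refine ⟨-x, by rw [norm_neg]; exact hx.le, ?_⟩
    rw [Real.norm_eq_abs, abs_of_neg h] at hgx
    rwa [map_neg]


lemma nearMax {Z : Type*} {C : Set Z} (hC : C.Nonempty) (G : Z → ℝ) {B : ℝ} (hB : ∀ z ∈ C, G z ≤ B)
    {η : ℝ} (hη : 0 < η) : ∃ z₁ ∈ C, ∀ z ∈ C, G z ≤ G z₁ + η := by
  have hne : (G '' C).Nonempty := hC.image G
  have hbd : BddAbove (G '' C) := ⟨B, by rintro _ ⟨z, hz, rfl⟩; exact hB z hz⟩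
  obtain ⟨_, ⟨z₁, hz₁, rfl⟩, h⟩ := exists_lt_of_lt_csSup hne
    (show sSup (G '' C) - η < sSup (G '' C) by linarith)
  refine ⟨z₁, hz₁, fun z hz => ?_⟩
  have := le_csSup hbd ⟨z, hz, rfl⟩
  linarith

/-- Every slice contains a slice whose image under a map into a Hilbert space is small. -/
lemma hilbStep {E : Type*} [NormedAddCommGroup E] [InnerProductSpace ℝ E] (L : Z →L[ℝ] E)
    (g : Z →L[ℝ] ℝ) {δ θ : ℝ} (hδ : 0 < δ) (hθ : 0 < θ) :
    ∃ (g₂ : Z →L[ℝ] ℝ) (δ₂ : ℝ), 0 < δ₂ ∧ Sl g₂ δ₂ ⊆ Sl g δ ∧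
      ∀ z ∈ Sl g₂ δ₂, ∀ z' ∈ Sl g₂ δ₂, ‖L z - L z'‖ ≤ θ := by
  set τ : ℝ := δ / (4 * (‖L‖ ^ 2 + 1)) with hτ
  have hτ0 : 0 < τ := by positivity
  have hτL : ∀ z : Z, ‖z‖ ≤ 1 → τ * ‖L z‖ ^ 2 ≤ δ / 4 := by
    intro z hz
    have h1 : ‖L z‖ ≤ ‖L‖ := (L.le_opNorm z).trans (mul_le_of_le_one_right (norm_nonneg _) hz)
    have h2 : ‖L z‖ ^ 2 ≤ ‖L‖ ^ 2 + 1 := by nlinarith [norm_nonneg (L z)]
    calc τ * ‖L z‖ ^ 2 ≤ τ * (‖L‖ ^ 2 + 1) := mul_le_mul_of_nonneg_left h2 hτ0.le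
      _ = δ / 4 := by rw [hτ]; field_simp
  set η : ℝ := min (δ / 8) (τ * θ ^ 2 / 16) with hη
  have hη0 : 0 < η := lt_min (by positivity) (by positivity)
  have hη1 : η ≤ δ / 8 := min_le_left _ _
  have hη2 : η ≤ τ * θ ^ 2 / 16 := min_le_right _ _
  obtain ⟨z₁, hz₁, hmax⟩ := nearMax (C := {z : Z | ‖z‖ ≤ 1}) ⟨0, by simp⟩
    (fun z => g z + τ * ‖L z‖ ^ 2) (B := ‖g‖ + δ / 4) (fun z hz => by
      have := apply_le g hz
      have := hτL z hz
      linarith) hη0
  have hz₁' : ‖z₁‖ ≤ 1 := hz₁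
  let g₂ : Z →L[ℝ] ℝ := g + (2 * τ) • ((innerSL ℝ (L z₁)).comp L)
  have hg₂ : ∀ z, g₂ z = g z + 2 * τ * inner ℝ (L z₁) (L z) := by
    intro z
    simp [g₂]
  have hid : ∀ z, g z + τ * ‖L z‖ ^ 2 =
      (g z₁ + τ * ‖L z₁‖ ^ 2) + (g₂ z - g₂ z₁) + τ * ‖L z - L z₁‖ ^ 2 := by
    intro z
    rw [hg₂, hg₂, norm_sub_sq_real, real_inner_self_eq_norm_sq, real_inner_comm (L z) (L z₁)]
    ring
  have hmain : ∀ z ∈ Sl g₂ η, ‖L z - L z₁‖ ≤ θ / 2 ∧ ‖g‖ - δ < g z := by
    rintro z ⟨hz, hgz⟩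
    have h1 : g z + τ * ‖L z‖ ^ 2 ≤ g z₁ + τ * ‖L z₁‖ ^ 2 + η := hmax z hz
    have h2 := hid z
    have h3 : g₂ z₁ ≤ ‖g₂‖ := apply_le g₂ hz₁'
    have h4 : τ * ‖L z - L z₁‖ ^ 2 ≤ 2 * η := by linarith
    constructor
    · have h5 : τ * ‖L z - L z₁‖ ^ 2 ≤ τ * (θ ^ 2 / 4) := by
        have : 2 * η ≤ τ * θ ^ 2 / 8 := by linarith
        have : 0 ≤ τ * θ ^ 2 := by positivity
        linarith
      have h6 : ‖L z - L z₁‖ ^ 2 ≤ (θ / 2) ^ 2 := by
        have := le_of_mul_le_mul_left h5 hτ0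
        linarith
      exact le_of_sq_le_sq h6 (by positivity)
    · obtain ⟨w, hw, hgw⟩ := sl_nonempty g hη0
      have h7 : g w + τ * ‖L w‖ ^ 2 ≤ g z₁ + τ * ‖L z₁‖ ^ 2 + η := hmax w hw
      have h8 : 0 ≤ τ * ‖L w‖ ^ 2 := by positivity
      have h9 := hτL z hz
      have h10 : 0 ≤ τ * ‖L z - L z₁‖ ^ 2 := by positivity
      linarith
  refine ⟨g₂, η, hη0, fun z hz => ⟨hz.1, (hmain z hz).2⟩, fun z hz z' hz' => ?_⟩
  have h1 := (hmain z hz).1
  have h2 := (hmain z' hz').1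
  calc ‖L z - L z'‖ = ‖(L z - L z₁) - (L z' - L z₁)‖ := by congr 1; abel
    _ ≤ ‖L z - L z₁‖ + ‖L z' - L z₁‖ := norm_sub_le _ _
    _ ≤ θ := by linarith


end general

/-- The real Hilbert space l2 over an index set. -/
abbrev E2 (Γ : Type) : Type := lp (fun _ : Γ => ℝ) 2

section hilbert

variable {E : Type*} [NormedAddCommGroup E] [InnerProductSpace ℝ E]

lemma gram {m : ℕ} (v : Fin m → E) (σ : Fin m → ℝ) (hσ : ∀ a, |σ a| ≤ 1) {ε : ℝ}
    (hv : ∀ a b, a ≠ b → |inner ℝ (v a) (v b)| ≤ ε) (hε : 0 ≤ ε) :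
    |‖∑ a, σ a • v a‖ ^ 2 - ∑ a, σ a ^ 2 * ‖v a‖ ^ 2| ≤ (m : ℝ) ^ 2 * ε := by
  have e1 : ‖∑ a, σ a • v a‖ ^ 2 = ∑ a, ∑ b, σ a * (σ b * inner ℝ (v a) (v b)) := by
    rw [← real_inner_self_eq_norm_sq, sum_inner]
    apply Finset.sum_congr rfl
    intro a _
    rw [inner_sum]
    apply Finset.sum_congr rfl
    intro b _
    rw [real_inner_smul_left, real_inner_smul_right]
  have e2 : ∑ a, σ a ^ 2 * ‖v a‖ ^ 2 =
      ∑ a, ∑ b, if a = b then σ a * (σ b * inner ℝ (v a) (v b)) else 0 := by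
    apply Finset.sum_congr rfl
    intro a _
    rw [Finset.sum_ite_eq]
    simp only [Finset.mem_univ, if_true]
    rw [real_inner_self_eq_norm_sq]
    ring
  rw [e1, e2, ← Finset.sum_sub_distrib]
  calc |∑ a, (∑ b, σ a * (σ b * inner ℝ (v a) (v b)) -
        ∑ b, if a = b then σ a * (σ b * inner ℝ (v a) (v b)) else 0)|
      ≤ ∑ a, |∑ b, σ a * (σ b * inner ℝ (v a) (v b)) -
        ∑ b, if a = b then σ a * (σ b * inner ℝ (v a) (v b)) else 0| :=
        Finset.abs_sum_le_sum_abs _ _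
    _ ≤ ∑ _a : Fin m, (m : ℝ) * ε := by
        apply Finset.sum_le_sum
        intro a _
        rw [← Finset.sum_sub_distrib]
        calc |∑ b, (σ a * (σ b * inner ℝ (v a) (v b)) -
              if a = b then σ a * (σ b * inner ℝ (v a) (v b)) else 0)|
            ≤ ∑ b, |σ a * (σ b * inner ℝ (v a) (v b)) -
              if a = b then σ a * (σ b * inner ℝ (v a) (v b)) else 0| :=
              Finset.abs_sum_le_sum_abs _ _
          _ ≤ ∑ _b : Fin m, ε := by
              apply Finset.sum_le_sum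
              intro b _
              by_cases hab : a = b
              · rw [if_pos hab, sub_self, abs_zero]; exact hε
              · rw [if_neg hab, sub_zero, abs_mul, abs_mul]
                have h1 := hv a b hab
                have h2 := hσ a
                have h3 := hσ b
                have h4 := abs_nonneg (σ a)
                have h5 := abs_nonneg (σ b)
                have h6 := abs_nonneg (inner ℝ (v a) (v b))
                calc |σ a| * (|σ b| * |inner ℝ (v a) (v b)|)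
                    ≤ 1 * (1 * ε) := by gcongr
                  _ = ε := by ring
          _ = (m : ℝ) * ε := by simp
    _ = (m : ℝ) ^ 2 * ε := by
        rw [Finset.sum_const, Finset.card_univ, Fintype.card_fin, nsmul_eq_mul]; ring


end hilbert

section select

variable {Γ : Type}

lemma exists_weak_limit {S : Type} [Infinite S] (h : S → E2 Γ) {R : ℝ} (hR : ∀ s, ‖h s‖ ≤ R) :
    ∃ u : E2 Γ, ‖u‖ ≤ R ∧ ∀ g : E2 Γ,
      Tendsto (fun s => inner ℝ (h s) g) (hyperfilter S : Filter S) (𝓝 (inner ℝ u g)) := by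
  let φ : S → WeakDual ℝ (E2 Γ) := fun s =>
    StrongDual.toWeakDual (InnerProductSpace.toDual ℝ (E2 Γ) (h s))
  have hK := WeakDual.isCompact_closedBall (𝕜 := ℝ) (E := E2 Γ) 0 R
  obtain ⟨f, hf, hlim⟩ := hK.ultrafilter_le_nhds ((hyperfilter S).map φ) (by
    rw [le_principal_iff]
    apply Ultrafilter.mem_map.mpr
    apply Filter.univ_mem'
    intro s
    simp only [Set.mem_preimage, φ, Metric.mem_closedBall, dist_zero_right]
    have : WeakDual.toStrongDual (StrongDual.toWeakDual (InnerProductSpace.toDual ℝ (E2 Γ) (h s)))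
      = InnerProductSpace.toDual ℝ (E2 Γ) (h s) := rfl
    rw [this, LinearIsometryEquiv.norm_map]
    exact hR s)
  refine ⟨(InnerProductSpace.toDual ℝ (E2 Γ)).symm (WeakDual.toStrongDual f), ?_, ?_⟩
  · rw [LinearIsometryEquiv.norm_map]
    simpa using hf
  · intro g
    have h1 : Tendsto (fun s => φ s g) (hyperfilter S : Filter S) (𝓝 (f g)) := by
      have h2 : Tendsto φ (hyperfilter S : Filter S) (𝓝 f) := hlim
      exact ((WeakDual.eval_continuous g).tendsto f).comp h2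
    have h3 : inner ℝ ((InnerProductSpace.toDual ℝ (E2 Γ)).symm (WeakDual.toStrongDual f)) g =
        f g := by
      rw [InnerProductSpace.toDual_symm_apply]
      rfl
    rw [h3]
    exact h1

lemma coord_small (u : E2 Γ) {c : ℝ} (hc : 0 < c) : {γ : Γ | c < |u γ|}.Finite := by
  have h := (lp.memℓp u).summable (by norm_num)
  have h2 : Summable fun γ => |u γ| ^ 2 := by
    simpa using h
  have h3 := h2.tendsto_cofinite_zero
  have h4 : ∀ᶠ γ in cofinite, |u γ| ^ 2 < c ^ 2 := h3.eventually (gt_mem_nhds (by positivity))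
  have h5 : {γ : Γ | ¬ (|u γ| ^ 2 < c ^ 2)}.Finite := h4
  apply h5.subset
  intro γ hγ
  simp only [Set.mem_ofPred_eq] at hγ ⊢
  push Not
  exact pow_le_pow_left₀ hc.le hγ.le 2

lemma select {S : Set Γ} (hS : S.Infinite) (h : Γ → E2 Γ) {R c : ℝ} (hR : ∀ s, ‖h s‖ ≤ R)
    (hc : 0 < c) :
    ∃ u : E2 Γ, ‖u‖ ≤ R ∧ ∀ ε : ℝ, 0 < ε → ∀ m : ℕ, ∃ i : Fin m → Γ, (∀ a, i a ∈ S) ∧
      (∀ a b, a ≠ b → |inner ℝ (h (i a) - u) (h (i b) - u)| ≤ ε) ∧ ∀ a, |u (i a)| ≤ c := by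
  have : Infinite S := hS.to_subtype
  obtain ⟨u, hu, hlim⟩ := exists_weak_limit (S := S) (fun s => h s) (fun s => hR s)
  refine ⟨u, hu, fun ε hε m => ?_⟩
  induction m with
  | zero => exact ⟨fun a => a.elim0, fun a => a.elim0, fun a => a.elim0, fun a => a.elim0⟩
  | succ m ih =>
    obtain ⟨i, hiS, hi, hiu⟩ := ih
    have h1 : ∀ a : Fin m, ∀ᶠ s : S in (hyperfilter S : Filter S),
        |inner ℝ (h s - u) (h (i a) - u)| < ε := by
      intro a
      have h2 : Tendsto (fun s : S => |inner ℝ (h s - u) (h (i a) - u)|)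
          (hyperfilter S : Filter S) (𝓝 0) := by
        have h3 := ((hlim (h (i a) - u)).sub
          (tendsto_const_nhds (x := inner ℝ u (h (i a) - u)))).abs
        simp only [sub_self, abs_zero] at h3
        refine h3.congr fun s => ?_
        rw [← inner_sub_left]
      exact h2.eventually (gt_mem_nhds hε)
    have h4 : ∀ᶠ s : S in (hyperfilter S : Filter S), |u s| ≤ c := by
      apply hyperfilter_le_cofinite
      have h5 := (coord_small u hc).preimage (f := ((↑) : S → Γ)) Subtype.val_injective.injOn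
      have : {s : S | ¬ |u s| ≤ c}.Finite := by
        apply h5.subset
        intro s hs
        simpa using hs
      exact this
    obtain ⟨s, hs1, hs2⟩ := ((Filter.eventually_all.mpr h1).and h4).exists
    refine ⟨Fin.snoc i (s : Γ), ?_, ?_, ?_⟩
    · intro a
      refine Fin.lastCases ?_ (fun b => ?_) a
      · rw [Fin.snoc_last]; exact s.2
      · rw [Fin.snoc_castSucc]; exact hiS b
    · intro a b hab
      rcases Fin.eq_castSucc_or_eq_last a with ⟨a', rfl⟩ | rfl <;>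
      rcases Fin.eq_castSucc_or_eq_last b with ⟨b', rfl⟩ | rfl
      · rw [Fin.snoc_castSucc, Fin.snoc_castSucc]
        exact hi a' b' (fun h => hab (by rw [h]))
      · rw [Fin.snoc_castSucc, Fin.snoc_last, real_inner_comm]
        exact (hs1 a').le
      · rw [Fin.snoc_castSucc, Fin.snoc_last]
        exact (hs1 b').le
      · exact absurd rfl hab
    · intro a
      refine Fin.lastCases ?_ (fun b => ?_) a
      · rw [Fin.snoc_last]; exact hs2
      · rw [Fin.snoc_castSucc]; exact hiu b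


end select

end

end Pool.Agent.Y281.NI
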