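import Mathlib
import Pool.Agent.Y281.NI.Base
import Pool.Agent.Helper359.NIBase

set_option autoImplicit false

open Filter Topology

namespace Pool.Agent.Y281.NI

open Pool.Agent.Helper359.NI (numRadius)

section general

variable {Z : Type} [NormedAddCommGroup Z] [NormedSpace ℝ Z]

/-- Every operator of rank one and norm one has numerical radius one. -/
def RankOne (Z : Type) [NormedAddCommGroup Z] [NormedSpace ℝ Z] : Prop :=
  ∀ (g : Z →L[ℝ] ℝ) (v : Z), ‖g.smulRight v‖ = 1 → 1 ≤ numRadius ℝ (g.smulRight v)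

/-- Consequence for slices. -/
lemma propA (h : RankOne Z) (g : Z →L[ℝ] ℝ) (hg : g ≠ 0) (y : Z) (hy : ‖y‖ = 1)
    {δ τ : ℝ} (hδ : 0 < δ) (hτ : 0 < τ) :
    ∃ (x : Z) (f : Z →L[ℝ] ℝ), ‖x‖ = 1 ∧ ‖f‖ = 1 ∧ f x = 1 ∧ ‖g‖ - δ < |g x| ∧
      1 - τ < |f y| := by
  have hg0 : 0 < ‖g‖ := norm_pos_iff.mpr hg
  have hTn : ‖(‖g‖⁻¹ • g).smulRight y‖ = 1 := by
    rw [ContinuousLinearMap.norm_smulRight_apply, hy, norm_smul, norm_inv, norm_norm,
      inv_mul_cancel₀ hg0.ne', one_mul]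
  have h1 : 1 ≤ numRadius ℝ ((‖g‖⁻¹ • g).smulRight y) := h _ _ hTn
  set T : Z →L[ℝ] Z := (‖g‖⁻¹ • g).smulRight y with hT
  set κ : ℝ := min (δ / ‖g‖) τ with hκ
  have hκ0 : 0 < κ := lt_min (by positivity) hτ
  have hne : {r : ℝ | ∃ (x : Z) (f : Z →L[ℝ] ℝ), ‖x‖ = 1 ∧ ‖f‖ = 1 ∧ f x = 1 ∧
      r = ‖f (T x)‖}.Nonempty := by
    obtain ⟨f, hf1, hf2⟩ := exists_dual_vector ℝ y (by rw [hy]; norm_num)
    exact ⟨_, y, f, hy, hf1, by rw [hf2, hy]; simp, rfl⟩
  obtain ⟨r, ⟨x, f, hx, hf, hfx, rfl⟩, hr⟩ := exists_lt_of_lt_csSup hne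
    (show 1 - κ < sSup _ from lt_of_lt_of_le (by linarith) h1)
  refine ⟨x, f, hx, hf, hfx, ?_, ?_⟩
  · have e1 : ‖f (T x)‖ = ‖g‖⁻¹ * |g x| * |f y| := by
      simp only [hT, ContinuousLinearMap.smulRight_apply, _root_.smul_apply,
        map_smul, smul_eq_mul, Real.norm_eq_abs, abs_mul, abs_inv, abs_norm]
    have hfy : |f y| ≤ 1 := by
      calc |f y| = ‖f y‖ := rfl
        _ ≤ ‖f‖ * ‖y‖ := f.le_opNorm _
        _ = 1 := by rw [hf, hy, one_mul]
    rw [e1] at hr
    have h2 : ‖g‖⁻¹ * |g x| * |f y| ≤ ‖g‖⁻¹ * |g x| := by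
      apply mul_le_of_le_one_right (by positivity) hfy
    have h3 : 1 - δ / ‖g‖ < ‖g‖⁻¹ * |g x| := by
      have : κ ≤ δ / ‖g‖ := min_le_left _ _
      linarith
    have h4 : ‖g‖ * (1 - δ / ‖g‖) < ‖g‖ * (‖g‖⁻¹ * |g x|) := mul_lt_mul_of_pos_left h3 hg0
    have h5 : ‖g‖ * (1 - δ / ‖g‖) = ‖g‖ - δ := by field_simp
    have h6 : ‖g‖ * (‖g‖⁻¹ * |g x|) = |g x| := by field_simp
    rw [h5, h6] at h4
    exact h4
  · have e1 : ‖f (T x)‖ = ‖g‖⁻¹ * |g x| * |f y| := by
      simp only [hT, ContinuousLinearMap.smulRight_apply, _root_.smul_apply,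
        map_smul, smul_eq_mul, Real.norm_eq_abs, abs_mul, abs_inv, abs_norm]
    have hgx : ‖g‖⁻¹ * |g x| ≤ 1 := by
      have : |g x| ≤ ‖g‖ := by
        calc |g x| = ‖g x‖ := rfl
          _ ≤ ‖g‖ * ‖x‖ := g.le_opNorm _
          _ = ‖g‖ := by rw [hx, mul_one]
      rw [inv_mul_le_iff₀ hg0]; linarith
    rw [e1] at hr
    have h2 : ‖g‖⁻¹ * |g x| * |f y| ≤ |f y| := by
      apply mul_le_of_le_one_left (abs_nonneg _) hgx
    have : κ ≤ τ := min_le_right _ _
    linarith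

/-- Iteration: given finitely many slices and a unit vector there are points of the slices and
one functional which is nearly norming at the vector and nearly of modulus one at all points. -/
lemma iterSl (h : RankOne Z) (g : ℕ → Z →L[ℝ] ℝ) (δ : ℕ → ℝ) (hg : ∀ n, g n ≠ 0)
    (hδ : ∀ n, 0 < δ n) (y : Z) (hy : ‖y‖ = 1) (m : ℕ) :
    ∀ η : ℝ, 0 < η → ∃ (z : ℕ → Z) (f : Z →L[ℝ] ℝ), (∀ i < m, z i ∈ Sl (g i) (δ i)) ∧ ‖f‖ ≤ 1 ∧
      1 - η ≤ f y ∧ ∀ i < m, 1 - η ≤ |f (z i)| := by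
  induction m with
  | zero =>
    intro η hη
    obtain ⟨f, hf1, hf2⟩ := exists_dual_vector ℝ y (by rw [hy]; norm_num)
    refine ⟨fun _ => 0, f, fun i hi => absurd hi (Nat.not_lt_zero i), hf1.le, ?_,
      fun i hi => absurd hi (Nat.not_lt_zero i)⟩
    rw [hf2, hy]
    simp only [RCLike.ofReal_real_eq_id, id]
    linarith
  | succ m ih =>
    intro η hη
    set η' : ℝ := min (η / (2 * (m + 1))) (1 / 2) with hη'
    have hη'0 : 0 < η' := lt_min (by positivity) (by norm_num)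
    have hη'1 : η' ≤ 1 / 2 := min_le_right _ _
    have hη'2 : 2 * (m + 1) * η' ≤ η := by
      have : η' ≤ η / (2 * (m + 1)) := min_le_left _ _
      calc 2 * ((m : ℝ) + 1) * η' ≤ 2 * (m + 1) * (η / (2 * (m + 1))) := by
            apply mul_le_mul_of_nonneg_left this; positivity
        _ = η := by field_simp
    obtain ⟨z, f₀, hz, hf₀, hf₀y, hf₀z⟩ := ih η' hη'0
    -- signs
    let s : ℕ → ℝ := fun i => if 0 ≤ f₀ (z i) then 1 else -1
    have hs : ∀ i, s i * f₀ (z i) = |f₀ (z i)| := by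
      intro i
      simp only [s]
      split_ifs with h0
      · rw [one_mul, abs_of_nonneg h0]
      · rw [abs_of_neg (not_le.mp h0)]; ring
    have hs1 : ∀ i, |s i| = 1 := by
      intro i
      simp only [s]
      split_ifs <;> simp
    set Y : Z := y + ∑ i ∈ Finset.range m, s i • z i with hY
    have hYlow : ((m : ℝ) + 1) * (1 - η') ≤ ‖Y‖ := by
      have e1 : f₀ Y = f₀ y + ∑ i ∈ Finset.range m, |f₀ (z i)| := by
        rw [hY, map_add, map_sum]
        congr 1
        apply Finset.sum_congr rfl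
        intro i _
        rw [map_smul, smul_eq_mul, hs]
      have e2 : (m : ℝ) * (1 - η') ≤ ∑ i ∈ Finset.range m, |f₀ (z i)| := by
        calc (m : ℝ) * (1 - η') = ∑ _i ∈ Finset.range m, (1 - η') := by
              rw [Finset.sum_const, Finset.card_range, nsmul_eq_mul]
          _ ≤ _ := Finset.sum_le_sum fun i hi => hf₀z i (Finset.mem_range.mp hi)
      have e3 : f₀ Y ≤ ‖Y‖ := by
        calc f₀ Y ≤ ‖f₀ Y‖ := le_abs_self _
          _ ≤ ‖f₀‖ * ‖Y‖ := f₀.le_opNorm _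
          _ ≤ ‖Y‖ := mul_le_of_le_one_left (norm_nonneg _) hf₀
      nlinarith
    have hYpos : 0 < ‖Y‖ := by
      have : 0 < ((m : ℝ) + 1) * (1 - η') := by
        apply mul_pos (by positivity); linarith
      linarith
    have hy' : ‖(‖Y‖⁻¹ • Y)‖ = 1 := by
      rw [norm_smul, norm_inv, norm_norm, inv_mul_cancel₀ hYpos.ne']
    obtain ⟨x₁, f₁, hx₁, hf₁, hfx₁, hgx₁, hfy₁⟩ :=
      propA h (g m) (hg m) (‖Y‖⁻¹ • Y) hy' (hδ m) hη'0
    -- correct the sign of the functional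
    obtain ⟨f, hf, hfx, hfy⟩ : ∃ f : Z →L[ℝ] ℝ, ‖f‖ = 1 ∧ |f x₁| = 1 ∧
        1 - η' < f (‖Y‖⁻¹ • Y) := by
      rcases le_or_gt 0 (f₁ (‖Y‖⁻¹ • Y)) with h0 | h0
      · exact ⟨f₁, hf₁, by rw [hfx₁, abs_one], by rwa [abs_of_nonneg h0] at hfy₁⟩
      · refine ⟨-f₁, by rwa [norm_neg], ?_, ?_⟩
        · rw [_root_.neg_apply, hfx₁, abs_neg, abs_one]
        · rw [_root_.neg_apply]
          rwa [abs_of_neg h0] at hfy₁
    -- correct the sign of the point
    obtain ⟨x, hx, hgx, hfx'⟩ : ∃ x : Z, ‖x‖ ≤ 1 ∧ ‖g m‖ - δ m < g m x ∧ |f x| = 1 := by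
      rcases le_or_gt 0 (g m x₁) with h0 | h0
      · exact ⟨x₁, hx₁.le, by rwa [abs_of_nonneg h0] at hgx₁, hfx⟩
      · refine ⟨-x₁, by rw [norm_neg]; exact hx₁.le, ?_, ?_⟩
        · rw [map_neg]
          rwa [abs_of_neg h0] at hgx₁
        · rw [map_neg, abs_neg, hfx]
    have hfY : ((m : ℝ) + 1) - η ≤ f Y := by
      rw [map_smul, smul_eq_mul] at hfy
      have e1 : ‖Y‖ * (1 - η') ≤ f Y := by
        have := mul_lt_mul_of_pos_left hfy hYpos
        rw [← mul_assoc, mul_inv_cancel₀ hYpos.ne', one_mul] at this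
        exact this.le
      have e2 : ((m : ℝ) + 1) * (1 - η') * (1 - η') ≤ ‖Y‖ * (1 - η') :=
        mul_le_mul_of_nonneg_right hYlow (by linarith)
      have e3 : ((m : ℝ) + 1) - 2 * (m + 1) * η' ≤ ((m : ℝ) + 1) * (1 - η') * (1 - η') := by
        have : 0 ≤ ((m : ℝ) + 1) * (η' * η') := by positivity
        nlinarith
      linarith
    have hfle : ∀ w : Z, ‖w‖ ≤ 1 → f w ≤ 1 := fun w hw => hf ▸ apply_le f hw
    have hterm : ∀ i ∈ Finset.range m, f (s i • z i) ≤ 1 := by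
      intro i hi
      apply hfle
      rw [norm_smul, Real.norm_eq_abs, hs1, one_mul]
      exact (hz i (Finset.mem_range.mp hi)).1
    have hfYe : f Y = f y + ∑ i ∈ Finset.range m, f (s i • z i) := by
      rw [hY, map_add, map_sum]
    refine ⟨fun i => if i = m then x else z i, f, ?_, hf.le, ?_, ?_⟩
    · intro i hi
      dsimp only
      split_ifs with him
      · subst him
        exact ⟨hx, hgx⟩
      · exact hz i (by omega)
    · have : ∑ i ∈ Finset.range m, f (s i • z i) ≤ m := by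
        calc ∑ i ∈ Finset.range m, f (s i • z i) ≤ ∑ _i ∈ Finset.range m, (1 : ℝ) :=
              Finset.sum_le_sum hterm
          _ = m := by simp
      linarith
    · intro i hi
      dsimp only
      split_ifs with him
      · rw [hfx']
        linarith
      · have hj : i < m := by omega
        have hj' : i ∈ Finset.range m := Finset.mem_range.mpr hj
        have e1 : ∑ k ∈ (Finset.range m).erase i, f (s k • z k) ≤ (m : ℝ) - 1 := by
          calc ∑ k ∈ (Finset.range m).erase i, f (s k • z k)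
              ≤ ∑ _k ∈ (Finset.range m).erase i, (1 : ℝ) :=
                Finset.sum_le_sum fun k hk => hterm k (Finset.mem_of_mem_erase hk)
            _ = (m : ℝ) - 1 := by
              rw [Finset.sum_const, Finset.card_erase_of_mem hj', Finset.card_range]
              have : 1 ≤ m := by omega
              simp [Nat.cast_sub this]
        have e2 : ∑ k ∈ Finset.range m, f (s k • z k) = f (s i • z i) +
            ∑ k ∈ (Finset.range m).erase i, f (s k • z k) :=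
          (Finset.add_sum_erase _ _ hj').symm
        have e3 : f y ≤ 1 := hfle y hy.le
        have e4 : f (s i • z i) ≤ |f (z i)| := by
          rw [map_smul, smul_eq_mul]
          calc s i * f (z i) ≤ |s i * f (z i)| := le_abs_self _
            _ = |f (z i)| := by rw [abs_mul, hs1, one_mul]
        linarith

end general

end Pool.Agent.Y281.NI
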