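import Mathlib
import Pool.Agent.Y281.NI.Iter
import Pool.Agent.Y281.NI.Count

set_option autoImplicit false

open Filter Topology

namespace Pool.Agent.Y281.NI

/-- Slices with a large coordinate and small oscillation in the Hilbert direction. -/
lemma exists_slice {Y : Type} [NormedAddCommGroup Y] [NormedSpace ℝ Y] {Γ : Type}
    {E : Type} [NormedAddCommGroup E] [NormedSpace ℝ E] (e : (Y × E2 Γ) ≃L[ℝ] E) {A : ℝ}
    (hA : 0 < A) (he : ∀ w, ‖e w‖ ≤ A * ‖w‖) (q : E →L[ℝ] E2 Γ)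
    (hq : ∀ z, q z = (e.symm z).2) {ε : ℝ} (hε : 0 < ε) (γ : Γ) :
    ∃ (g : E →L[ℝ] ℝ) (δ : ℝ), g ≠ 0 ∧ 0 < δ ∧ (∀ z ∈ Sl g δ, 1 / (2 * A) < q z γ) ∧
      ∀ z ∈ Sl g δ, ∀ z' ∈ Sl g δ, ‖q z - q z'‖ ≤ ε := by
  classical
  let g₀ : E →L[ℝ] ℝ := (lp.evalCLM ℝ (fun _ : Γ => ℝ) 2 γ).comp q
  have hg : ∀ z, g₀ z = q z γ := fun _ => rfl
  have hgn : 1 / A ≤ ‖g₀‖ := by
    let w : Y × E2 Γ := (0, lp.single 2 γ (1 / A))
    have hA' : (0 : ℝ) < 1 / A := by positivity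
    have hw : ‖w‖ = 1 / A := by
      rw [Prod.norm_def]
      simp only [w, norm_zero]
      rw [lp.norm_single (by norm_num), Real.norm_eq_abs, abs_of_pos hA']
      exact max_eq_right hA'.le
    have h1 : ‖e w‖ ≤ 1 := by
      apply (he w).trans
      rw [hw]
      field_simp
      exact le_refl _
    have h2 : g₀ (e w) = 1 / A := by
      rw [hg, hq, e.symm_apply_apply]
      simp [w]
    rw [← h2]
    exact apply_le g₀ h1
  have hc : (0 : ℝ) < 1 / (2 * A) := by positivity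
  obtain ⟨g, δ, hδ, hs, H⟩ := hilbStep q g₀ hc hε
  have hlow : ∀ z ∈ Sl g₀ (1 / (2 * A)), 1 / (2 * A) < q z γ := by
    rintro z ⟨-, hz⟩
    rw [hg] at hz
    have : 1 / A - 1 / (2 * A) = 1 / (2 * A) := by field_simp; norm_num
    linarith
  refine ⟨g, δ, ?_, hδ, fun z hz => hlow z (hs hz), H⟩
  rintro rfl
  have h0 : (0 : E) ∈ Sl (0 : E →L[ℝ] ℝ) δ := ⟨by simp, by simpa using hδ⟩
  have h1 := hlow 0 (hs h0)
  rw [map_zero] at h1
  simp only [lp.coeFn_zero, Pi.zero_apply] at h1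
  linarith

lemma fiber {Γ C : Type} [Infinite Γ] (F : Γ → C) (h : Cardinal.mk C < Cardinal.mk Γ) :
    ∃ c, (F ⁻¹' {c}).Infinite := by
  obtain ⟨c, hc⟩ := Cardinal.exists_infinite_fiber F h
  exact ⟨c, Set.infinite_coe_iff.mp hc⟩

theorem not_rankOne (Y : Type) [NormedAddCommGroup Y] [NormedSpace ℝ Y] (D : Set Y)
    (hD : Dense D) (Γ : Type) [Infinite Γ] (hΓ : Cardinal.mk (Set D) < Cardinal.mk Γ)
    (E : Type) [NormedAddCommGroup E] [NormedSpace ℝ E] (e : (Y × E2 Γ) ≃L[ℝ] E) :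
    ¬ RankOne E := by
  classical
  intro hrk
  let p : E →L[ℝ] Y := (ContinuousLinearMap.fst ℝ Y (E2 Γ)).comp (e.symm : E →L[ℝ] Y × E2 Γ)
  let q : E →L[ℝ] E2 Γ := (ContinuousLinearMap.snd ℝ Y (E2 Γ)).comp (e.symm : E →L[ℝ] Y × E2 Γ)
  have hp : ∀ z, p z = (e.symm z).1 := fun _ => rfl
  have hq : ∀ z, q z = (e.symm z).2 := fun _ => rfl
  have hpq : ∀ z, e (p z, q z) = z := fun z => e.apply_symm_apply z
  set A : ℝ := ‖(e : (Y × E2 Γ) →L[ℝ] E)‖ + 1 with hAdef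
  set B : ℝ := ‖(e.symm : E →L[ℝ] Y × E2 Γ)‖ + 1 with hBdef
  have hA : 0 < A := by positivity
  have hB : 0 < B := by positivity
  have he : ∀ w, ‖e w‖ ≤ A * ‖w‖ := by
    intro w
    calc ‖e w‖ ≤ ‖(e : (Y × E2 Γ) →L[ℝ] E)‖ * ‖w‖ := (e : (Y × E2 Γ) →L[ℝ] E).le_opNorm w
      _ ≤ A * ‖w‖ := mul_le_mul_of_nonneg_right (by rw [hAdef]; linarith) (norm_nonneg _)
  have hes : ∀ z, ‖e.symm z‖ ≤ B * ‖z‖ := by
    intro z
    calc ‖e.symm z‖ ≤ ‖(e.symm : E →L[ℝ] Y × E2 Γ)‖ * ‖z‖ :=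
          (e.symm : E →L[ℝ] Y × E2 Γ).le_opNorm z
      _ ≤ B * ‖z‖ := mul_le_mul_of_nonneg_right (by rw [hBdef]; linarith) (norm_nonneg _)
  have hqn : ∀ z, ‖q z‖ ≤ B * ‖z‖ := fun z => (norm_snd_le (e.symm z)).trans (hes z)
  have hej : ∀ h : E2 Γ, ‖e (0, h)‖ ≤ A * ‖h‖ := by
    intro h
    have h1 := he (0, h)
    rwa [Prod.norm_def, norm_zero, max_eq_right (norm_nonneg h)] at h1
  have hei : ∀ y : Y, ‖e (y, 0)‖ ≤ A * ‖y‖ := by
    intro y
    have h1 := he (y, 0)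
    rwa [Prod.norm_def, norm_zero, max_eq_left (norm_nonneg y)] at h1
  -- constants
  set c : ℝ := 1 / (2 * A) with hc
  have hc0 : 0 < c := by positivity
  set K : ℝ := 2 * B with hK
  have hK0 : 0 < K := by positivity
  set R : ℝ := A * Real.sqrt (K ^ 2 + 1) with hR
  have hR0 : 0 ≤ R := by positivity
  set V : ℝ := 2 * B * (6 * R + 1) with hV
  have hV0 : 0 < V := by positivity
  -- the size
  obtain ⟨N, hN1, hNL⟩ : ∃ N : ℕ, 1 ≤ N ∧
      (V ^ 2 + 1) / (c / 2) ^ 2 < ∑ i ∈ Finset.range N, 1 / ((i : ℝ) + 1) := by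
    have h1 := Real.tendsto_sum_range_one_div_nat_succ_atTop
    have h2 := (h1.eventually_gt_atTop ((V ^ 2 + 1) / (c / 2) ^ 2)).and
      (eventually_ge_atTop 1)
    obtain ⟨N, hN⟩ := h2.exists
    exact ⟨N, hN.2, hN.1⟩
  have hNr : (1 : ℝ) ≤ N := by exact_mod_cast hN1
  set τ : ℝ := 1 / (6 * (Real.sqrt N + 1)) with hτ
  have hsN : 0 ≤ Real.sqrt (N : ℝ) := Real.sqrt_nonneg _
  have hτ0 : 0 < τ := by positivity
  have hτN : 6 * (Real.sqrt N * τ) ≤ 1 := by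
    have : 6 * ((Real.sqrt N + 1) * τ) = 1 := by rw [hτ]; field_simp
    nlinarith
  set ε : ℝ := τ / (8 * A) with hε
  have hε0 : 0 < ε := by positivity
  have hεA : 4 * (A * ε) = τ / 2 := by rw [hε]; field_simp; norm_num
  -- the slices
  choose g δ hg hδ hlow hosc using fun γ : Γ => exists_slice e hA he q hq hε0 γ
  choose z₀ hz₀ using fun γ : Γ => sl_nonempty (g γ) (hδ γ)
  -- the traces in the dense set
  let F : Γ → Set D := fun γ => {d | ∃ z ∈ Sl (g γ) (δ γ), ‖p z - d‖ < ε}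
  obtain ⟨C, hC⟩ := fiber F hΓ
  have hswap : ∀ γ ∈ F ⁻¹' {C}, ∀ γ' ∈ F ⁻¹' {C}, ∀ z ∈ Sl (g γ) (δ γ),
      ∃ z' ∈ Sl (g γ') (δ γ'), ‖p z' - p z‖ ≤ 2 * ε := by
    intro γ hγ γ' hγ' z hz
    obtain ⟨d, hd, hdz⟩ := hD.exists_dist_lt (p z) hε0
    rw [dist_eq_norm] at hdz
    have h1 : (⟨d, hd⟩ : D) ∈ F γ := ⟨z, hz, hdz⟩
    rw [Set.mem_preimage, Set.mem_singleton_iff] at hγ hγ'
    rw [hγ, ← hγ'] at h1
    obtain ⟨z', hz', hdz'⟩ := h1
    refine ⟨z', hz', ?_⟩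
    calc ‖p z' - p z‖ = ‖(p z' - d) - (p z - d)‖ := by congr 1; abel
      _ ≤ ‖p z' - d‖ + ‖p z - d‖ := norm_sub_le _ _
      _ ≤ 2 * ε := by
          have h3 : ‖p z' - d‖ < ε := hdz'
          linarith
  have hqz₀ : ∀ γ, ‖q (z₀ γ)‖ ≤ B := fun γ =>
    (hqn _).trans (mul_le_of_le_one_right hB.le (hz₀ γ).1)
  obtain ⟨u, hu, Hsel⟩ := select hC (fun γ => q (z₀ γ)) hqz₀ (show 0 < c / 2 by positivity)
  set ε' : ℝ := 1 / ((N : ℝ) ^ 2) with hε'
  have hε'0 : 0 < ε' := by positivity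
  have hε'N : (N : ℝ) ^ 2 * ε' = 1 := by rw [hε']; field_simp
  obtain ⟨i, hiC, hi, hiu⟩ := Hsel ε' hε'0 N
  -- the vectors
  let κ : Fin N → E2 Γ := fun a => q (z₀ (i a)) - u
  have hκup : ∀ a, ‖κ a‖ ≤ K := by
    intro a
    calc ‖κ a‖ ≤ ‖q (z₀ (i a))‖ + ‖u‖ := norm_sub_le _ _
      _ ≤ K := by rw [hK]; linarith [hqz₀ (i a)]
  have hκlow : ∀ a, c / 2 ≤ ‖κ a‖ := by
    intro a
    have h1 := lp.norm_apply_le_norm (by norm_num) (κ a) (i a)
    have h2 : (κ a) (i a) = q (z₀ (i a)) (i a) - u (i a) := rfl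
    rw [h2] at h1
    have h3 := hlow (i a) _ (hz₀ (i a))
    have h4 := (abs_le.mp (hiu a)).2
    have h5 := le_abs_self (q (z₀ (i a)) (i a) - u (i a))
    rw [Real.norm_eq_abs] at h1
    linarith
  let n₀ : Fin N := ⟨0, by omega⟩
  let ι : ℕ → Fin N := fun n => if h : n < N then ⟨n, h⟩ else n₀
  have hι : ∀ a : Fin N, ι a = a := by
    intro a
    simp [ι]
  -- the test vector
  let x₀ : E2 Γ := ∑ a : Fin N, cf a • κ a
  have hx₀ : V < ‖x₀‖ := by
    have h1 := (abs_le.mp (gram κ (fun a => cf a)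
      (fun a => by rw [abs_of_pos (cf_pos _)]; exact cf_le_one _) hi hε'0.le)).1
    rw [hε'N] at h1
    have h2 : (c / 2) ^ 2 * ∑ i ∈ Finset.range N, 1 / ((i : ℝ) + 1) ≤
        ∑ a : Fin N, cf a ^ 2 * ‖κ a‖ ^ 2 := by
      rw [Finset.sum_range, Finset.mul_sum]
      apply Finset.sum_le_sum
      intro a _
      rw [cf_sq, mul_comm]
      exact mul_le_mul_of_nonneg_left (pow_le_pow_left₀ (by positivity) (hκlow a) 2)
        (by positivity)
    have h3 : V ^ 2 + 1 < (c / 2) ^ 2 * ∑ i ∈ Finset.range N, 1 / ((i : ℝ) + 1) := by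
      rw [div_lt_iff₀ (by positivity)] at hNL
      linarith
    have h4 : V ^ 2 < ‖x₀‖ ^ 2 := by
      have h5 : ‖∑ a : Fin N, cf a • κ a‖ ^ 2 = ‖x₀‖ ^ 2 := rfl
      rw [h5] at h1
      linarith
    exact lt_of_pow_lt_pow_left₀ 2 (norm_nonneg _) h4
  set X : E := e (0, x₀) with hX
  have hqX : q X = x₀ := by
    rw [hq, hX, e.symm_apply_apply]
  have hXn : 2 * (6 * R + 1) < ‖X‖ := by
    have h1 := hqn X
    rw [hqX] at h1
    have h2 : B * (2 * (6 * R + 1)) < B * ‖X‖ := by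
      have : V = B * (2 * (6 * R + 1)) := by rw [hV]; ring
      linarith
    exact lt_of_mul_lt_mul_left h2 hB.le
  have hXpos : 0 < ‖X‖ := lt_of_le_of_lt (by positivity) hXn
  have hy : ‖(‖X‖⁻¹ • X)‖ = 1 := by
    rw [norm_smul, norm_inv, norm_norm, inv_mul_cancel₀ hXpos.ne']
  set η : ℝ := min (1 / 2) (τ / 2) with hη
  have hη0 : 0 < η := by positivity
  have hη1 : η ≤ 1 / 2 := min_le_left _ _
  have hη2 : η ≤ τ / 2 := min_le_right _ _
  obtain ⟨z, f, hz, hf, hfy, hfz⟩ := iterSl hrk (fun n => g (i (ι n))) (fun n => δ (i (ι n)))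
    (fun n => hg _) (fun n => hδ _) (‖X‖⁻¹ • X) hy N η hη0
  have hfle : ∀ w : E, |f w| ≤ ‖w‖ := by
    intro w
    calc |f w| = ‖f w‖ := rfl
      _ ≤ ‖f‖ * ‖w‖ := f.le_opNorm _
      _ ≤ ‖w‖ := mul_le_of_le_one_left (norm_nonneg _) hf
  have hfX : 6 * R + 1 < f X := by
    rw [map_smul, smul_eq_mul] at hfy
    have h1 : ‖X‖ * (1 - η) ≤ ‖X‖ * (‖X‖⁻¹ * f X) := mul_le_mul_of_nonneg_left hfy hXpos.le
    rw [← mul_assoc, mul_inv_cancel₀ hXpos.ne', one_mul] at h1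
    nlinarith
  -- the values
  let θ : ℕ → ℝ := fun n => f (e (0, κ (ι n)))
  have hθadd : ∀ (s : Finset (Fin N)) (σ : Fin N → ℝ),
      f (e (0, ∑ a ∈ s, σ a • κ a)) = ∑ a ∈ s, σ a * f (e (0, κ a)) := by
    intro s σ
    have h1 : ((0 : Y), ∑ a ∈ s, σ a • κ a) = ∑ a ∈ s, σ a • ((0 : Y), κ a) := by
      rw [Prod.ext_iff, Prod.fst_sum, Prod.snd_sum]
      simp
    rw [h1, map_sum, map_sum]
    apply Finset.sum_congr rfl
    intro a _
    rw [map_smul, map_smul, smul_eq_mul]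
  have hfXθ : f X = ∑ n ∈ Finset.range N, cf n * θ n := by
    rw [hX, hθadd, Finset.sum_range]
    apply Finset.sum_congr rfl
    intro a _
    simp only [θ]
    rw [hι]
  have hsub : ∀ P ⊆ Finset.range N, P.Nonempty → ∑ n ∈ P, θ n ≤ R * Real.sqrt P.card := by
    intro P hP hPne
    have hP1 : (1 : ℝ) ≤ P.card := by exact_mod_cast hPne.card_pos
    let σ : Fin N → ℝ := fun a => if (a : ℕ) ∈ P then 1 else 0
    have hσ : ∀ a, |σ a| ≤ 1 := by
      intro a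
      simp only [σ]
      split_ifs <;> simp
    have h1 : ∑ n ∈ P, θ n = f (e (0, ∑ a : Fin N, σ a • κ a)) := by
      rw [hθadd]
      have h2 : ∑ n ∈ P, θ n = ∑ n ∈ Finset.range N, if n ∈ P then θ n else 0 := by
        rw [← Finset.sum_filter]
        congr 1
        ext n
        rw [Finset.mem_filter]
        exact ⟨fun h => ⟨hP h, h⟩, fun h => h.2⟩
      rw [h2, Finset.sum_range]
      apply Finset.sum_congr rfl
      intro a _
      simp only [θ, σ]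
      rw [hι]
      split_ifs <;> simp
    have h3 := (abs_le.mp (gram κ σ hσ hi hε'0.le)).2
    rw [hε'N] at h3
    have h4 : ∑ a : Fin N, σ a ^ 2 * ‖κ a‖ ^ 2 ≤ P.card * K ^ 2 := by
      calc ∑ a : Fin N, σ a ^ 2 * ‖κ a‖ ^ 2 ≤ ∑ a : Fin N, if (a : ℕ) ∈ P then K ^ 2 else 0 := by
            apply Finset.sum_le_sum
            intro a _
            simp only [σ]
            split_ifs
            · rw [one_pow, one_mul]
              exact pow_le_pow_left₀ (norm_nonneg _) (hκup a) 2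
            · simp
        _ = ∑ n ∈ Finset.range N, if n ∈ P then K ^ 2 else 0 := by
            rw [Finset.sum_range]
        _ = ∑ n ∈ P, K ^ 2 := by
            rw [← Finset.sum_filter]
            congr 1
            ext n
            rw [Finset.mem_filter]
            exact ⟨fun h => h.2, fun h => ⟨hP h, h⟩⟩
        _ = P.card * K ^ 2 := by rw [Finset.sum_const, nsmul_eq_mul]
    have h5 : ‖∑ a : Fin N, σ a • κ a‖ ^ 2 ≤ (K ^ 2 + 1) * P.card := by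
      nlinarith
    have h6 : ‖∑ a : Fin N, σ a • κ a‖ ≤ Real.sqrt (K ^ 2 + 1) * Real.sqrt P.card := by
      rw [← Real.sqrt_mul (by positivity)]
      exact Real.le_sqrt_of_sq_le h5
    rw [h1]
    calc f (e (0, ∑ a : Fin N, σ a • κ a)) ≤ |f (e (0, ∑ a : Fin N, σ a • κ a))| := le_abs_self _
      _ ≤ ‖e (0, ∑ a : Fin N, σ a • κ a)‖ := hfle _
      _ ≤ A * ‖∑ a : Fin N, σ a • κ a‖ := hej _
      _ ≤ A * (Real.sqrt (K ^ 2 + 1) * Real.sqrt P.card) := mul_le_mul_of_nonneg_left h6 hA.le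
      _ = R * Real.sqrt P.card := by rw [hR]; ring
  -- exchange
  have hex : ∀ n < N, ∀ m < N, ∃ w : E, ‖w‖ ≤ 1 ∧ |f w - f (z n) - (θ m - θ n)| ≤ τ / 2 := by
    intro n hn m hm
    obtain ⟨w, hw, hpw⟩ := hswap (i (ι n)) (hiC _) (i (ι m)) (hiC _) (z n) (hz n hn)
    refine ⟨w, hw.1, ?_⟩
    have h1 : w - z n = e (p w - p (z n), 0) + e (0, q w - q (z₀ (i (ι m)))) +
        e (0, q (z₀ (i (ι n))) - q (z n)) + (e (0, κ (ι m)) - e (0, κ (ι n))) := by
      have h2 : w - z n = e (p w - p (z n), q w - q (z n)) := by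
        rw [← Prod.mk_sub_mk, map_sub, hpq, hpq]
      have h3 : e (0, κ (ι m)) - e (0, κ (ι n)) = e (0, κ (ι m) - κ (ι n)) := by
        rw [← map_sub, Prod.mk_sub_mk, sub_zero]
      rw [h2, h3, ← map_add, ← map_add, ← map_add]
      congr 1
      simp only [κ, Prod.mk_add_mk, Prod.mk.injEq]
      constructor
      · simp
      · abel
    have h2 : f w - f (z n) - (θ m - θ n) = f (e (p w - p (z n), 0)) +
        f (e (0, q w - q (z₀ (i (ι m))))) + f (e (0, q (z₀ (i (ι n))) - q (z n))) := by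
      have h3 := congrArg f h1
      rw [map_sub, map_add, map_add, map_add, map_sub] at h3
      simp only [θ]
      linarith
    have b1 : |f (e (p w - p (z n), 0))| ≤ 2 * (A * ε) := by
      refine (hfle _).trans ((hei _).trans ?_)
      calc A * ‖p w - p (z n)‖ ≤ A * (2 * ε) := mul_le_mul_of_nonneg_left hpw hA.le
        _ = 2 * (A * ε) := by ring
    have b2 : |f (e (0, q w - q (z₀ (i (ι m)))))| ≤ A * ε := by
      refine (hfle _).trans ((hej _).trans ?_)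
      exact mul_le_mul_of_nonneg_left (hosc _ w hw _ (hz₀ _)) hA.le
    have b3 : |f (e (0, q (z₀ (i (ι n))) - q (z n)))| ≤ A * ε := by
      refine (hfle _).trans ((hej _).trans ?_)
      exact mul_le_mul_of_nonneg_left (hosc _ _ (hz₀ _) _ (hz n hn)) hA.le
    rw [h2]
    calc |f (e (p w - p (z n), 0)) + f (e (0, q w - q (z₀ (i (ι m))))) +
          f (e (0, q (z₀ (i (ι n))) - q (z n)))|
        ≤ |f (e (p w - p (z n), 0))| + |f (e (0, q w - q (z₀ (i (ι m)))))| +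
          |f (e (0, q (z₀ (i (ι n))) - q (z n)))| := abs_add_three _ _ _
      _ ≤ τ / 2 := by linarith
  have htwo : ∀ n < N, (∀ m < N, θ m - θ n ≤ τ) ∨ (∀ m < N, θ n - θ m ≤ τ) := by
    intro n hn
    have h1 := hfz n hn
    rcases le_or_gt 0 (f (z n)) with h0 | h0
    · left
      intro m hm
      obtain ⟨w, hw, hwb⟩ := hex n hn m hm
      have h2 := (abs_le.mp hwb).1
      have h3 := (abs_le.mp ((hfle w).trans hw)).2
      rw [abs_of_nonneg h0] at h1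
      linarith
    · right
      intro m hm
      obtain ⟨w, hw, hwb⟩ := hex n hn m hm
      have h2 := (abs_le.mp hwb).2
      have h3 := (abs_le.mp ((hfle w).trans hw)).1
      rw [abs_of_neg h0] at h1
      linarith
  have hfin := two_val θ hR0 hτ0.le hsub htwo
  rw [← hfXθ] at hfin
  linarith

end Pool.Agent.Y281.NI
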